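import Pool.Agent.Lib_helper76.UE9.B
import Pool.Agent.Lib_helper87.FAM.Siegel9
import Pool.Agent.Lib_helper24.FAM.DefsT
import Pool.Agent.Lib_helper76.FAM.Tate
import Pool.Agent.Lib_helper24.FAM.R45

/-!
# Points of order nine: the unit equation and the closed elements for independent parameters
-/

set_option autoImplicit false
set_option linter.unusedSectionVars false

namespace Pool.Agent.UE9

open WeierstrassCurve.Affine GK UP
open UEG (P0 IsUn Gen)
open UEN
open TN (Wt)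
open FK4 (Generic UnitEqS unitEqS_of Indep3 ClosedIn SameS OnlyConst supp_iff)

variable {k : Type*} [Field k] [DecidableEq k] [CharZero k] {t : k}
  {F : Type*} [Field F] [Algebra k F] {x y : F} {W : WeierstrassCurve.Affine k} {X Y : F}
  {P : W.Point}

/-- **points of order nine with independent parameters** -/
theorem nine_general (hg : Generic W X Y) (ht : t ≠ 0) (ht1 : t - 1 ≠ 0)
    (ht2 : t ^ 2 - t + 1 ≠ 0) {hb : bb t ≠ 0}
    (hO : addOrderOf (P0 (cc t) hb) = 9) (h : Generic (Wt (bb t) (cc t)) x y)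
    (hS : SameS (AddSubgroup.zmultiples P) X Y (AddSubgroup.zmultiples (P0 (cc t) hb)) x y)
    (hi : Indep3 t (t - 1) (t ^ 2 - t + 1)) (h1 : t ^ 3 - 3 * t ^ 2 + 1 ≠ 0)
    (h2 : t ^ 3 + 3 * t ^ 2 - 6 * t + 1 ≠ 0) :
    UnitEqS (AddSubgroup.zmultiples P) X Y ∧ ClosedIn (AddSubgroup.zmultiples P) X Y ⊥ := by
  classical
  have hfin : Finite (AddSubgroup.zmultiples (P0 (cc t) hb)) :=
    Finite.of_equiv _ (en hO).toEquiv
  have hft : Fintype (AddSubgroup.zmultiples (P0 (cc t) hb)) := Fintype.ofFinite _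
  have hg' := h.toU
  have hsi := GK.siegel9 hb (c := cc t) (d := t) rfl (by unfold bb cc; ring) hO hi
  have hG := indG_of (F := F) hsi
  have hU : UnitEqS (AddSubgroup.zmultiples (P0 (cc t) hb)) x y := unitEqS_of fun f h3 h4 =>
    unit9 ht ht1 ht2 hO hg' h1 h2 hG (supp_iff.mp h3) (supp_iff.mp h4)
  constructor
  · unfold UnitEqS at hU ⊢
    simp only [hS.supp, hS.lineS]
    exact hU
  · refine FK4.closedIn_bot hg fun z hz hc => ?_
    rw [hS.sp] at hz
    exact onlyConst_of hsi h hU z hz hc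

end Pool.Agent.UE9

namespace Pool.Agent.FK4

open Pool.Agent.MK4 WeierstrassCurve.Affine
open Pool.Agent.TN (Wt)
open Pool.Agent.UEG (P0)

variable {k : Type*} [Field k] [DecidableEq k] [CharZero k] {W : WeierstrassCurve.Affine k}
  {F : Type*} [Field F] [Algebra k F] {X Y : F}

/-- **points of order nine**: the generic clause, and the special curve -/
theorem nine_main (hg : Generic W X Y) (P : W.Point) (h : addOrderOf P = 9) :
    ∃ (d : k) (x y : F),
      Tate P X Y (d ^ 2 * (d - 1) * (d ^ 2 - d + 1)) (d ^ 2 * (d - 1)) x y ∧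
      (Indep3 d (d - 1) (d ^ 2 - d + 1) → d ^ 3 - 3 * d ^ 2 + 1 ≠ 0 →
        d ^ 3 + 3 * d ^ 2 - 6 * d + 1 ≠ 0 →
        UnitEqS (AddSubgroup.zmultiples P) X Y ∧ ClosedIn (AddSubgroup.zmultiples P) X Y ⊥) ∧
      (d = 2 ∨ d = -1 ∨ 2 * d = 1 → To9 P X Y) := by
  obtain ⟨t, x, y, hb, ht, ht1, ht2, hT, hg', hO, hS, -, h1⟩ := tate9s hg P h
  exact ⟨t, x, y, hT, fun hi h2 h3 => UE9.nine_general hg ht ht1 ht2 hO hg' hS hi h2 h3, h1⟩

end Pool.Agent.FK4
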