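import Pool.Agent.Lib_helper76.FAM.Conj

/-!
# The Tate normal forms of the points of order nine
-/

set_option autoImplicit false
set_option linter.unusedSectionVars false

namespace Pool.Agent.UE9

variable {k : Type*} [Field k]

/-- the coefficient `b` -/
def bb (t : k) : k := t ^ 2 * (t - 1) * (t ^ 2 - t + 1)

/-- the coefficient `c` -/
def cc (t : k) : k := t ^ 2 * (t - 1)

end Pool.Agent.UE9

namespace Pool.Agent.UEG

open WeierstrassCurve.Affine
open TN (Wt)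

section nine

variable {k : Type*} [Field k] [DecidableEq k] {b c : k}

/-- order nine -/
lemma bc_of_nine (hb : b ≠ 0) (h : addOrderOf (P0 c hb) = 9) :
    ∃ f : k, c = UE9.cc f ∧ b = UE9.bb f := by
  have hc : c ≠ 0 := by
    rintro rfl
    have := addOrderOf_le_of_nsmul_eq_zero (by norm_num : 0 < 4) (four_of_c hb)
    omega
  obtain ⟨d, hd⟩ : ∃ d : k, b = d * c := ⟨b / c, by field_simp⟩
  have hd0 : d ≠ 0 := by
    rintro rfl
    apply hb
    rw [hd, zero_mul]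
  obtain ⟨h4, e4⟩ := four_P0 hb hc hd
  have h9 : (9 : ℕ) • P0 c hb = 0 := by rw [← h]; exact addOrderOf_nsmul_eq_zero _
  have hd1 : d ≠ 1 := by
    rintro rfl
    -- then `4 P = - P`
    have e1 : (4 : ℕ) • P0 c hb = -P0 c hb := by
      rw [e4]
      show _ = -(Point.some 0 0 (ns0 hb))
      rw [Point.neg_some]
      simp only [Point.some.injEq]
      rw [negY_wt, hd]
      constructor <;> ring
    have e2 : (5 : ℕ) • P0 c hb = 0 := by
      rw [show (5 : ℕ) = 4 + 1 by norm_num, add_nsmul, one_nsmul, e1]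
      exact neg_add_cancel _
    have := addOrderOf_le_of_nsmul_eq_zero (by norm_num : 0 < 5) e2
    omega
  have hm : d - 1 ≠ 0 := sub_ne_zero.mpr hd1
  have hx4 : d * (d - 1) ≠ 0 := mul_ne_zero hd0 hm
  have hxy : ¬(d * (d - 1) = 0 ∧ d ^ 2 * (c + 1 - d) = (Wt b c).negY 0 0) := fun h => hx4 h.1
  have hs : (Wt b c).slope (d * (d - 1)) 0 (d ^ 2 * (c + 1 - d)) 0 =
      d * (c + 1 - d) / (d - 1) := by
    rw [slope_of_X_ne hx4]
    field_simp
    ring
  have e5 : (5 : ℕ) • P0 c hb = .some _ _ (nonsingular_add h4 (ns0 hb) hxy) := by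
    rw [show (5 : ℕ) = 4 + 1 by norm_num, add_nsmul, one_nsmul, e4]
    exact Point.add_some hxy
  have e : (5 : ℕ) • P0 c hb = -((4 : ℕ) • P0 c hb) := by
    rw [eq_neg_iff_add_eq_zero, ← add_nsmul]; exact h9
  rw [e5, e4, Point.neg_some] at e
  simp only [Point.some.injEq] at e
  have e6 := e.1
  rw [hs] at e6
  have e7 : (d * (c + 1 - d) / (d - 1)) ^ 2 + (1 - c) * (d * (c + 1 - d) / (d - 1)) - (-b) -
      d * (d - 1) - 0 = d * (d - 1) := e6
  rw [hd] at e7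
  field_simp at e7
  have e8 : c ^ 2 - c * (d - 1) - (d - 1) ^ 3 = 0 := by
    have : d * (c ^ 2 - c * (d - 1) - (d - 1) ^ 3) = 0 := by
      linear_combination e7
    exact (mul_eq_zero.mp this).resolve_left hd0
  obtain ⟨f, hf⟩ : ∃ f : k, c = f * (d - 1) := ⟨c / (d - 1), by field_simp⟩
  have e9 : d - 1 = f ^ 2 - f := by
    have : (d - 1) ^ 2 * (f ^ 2 - f - (d - 1)) = 0 := by
      rw [hf] at e8
      linear_combination e8
    have := (mul_eq_zero.mp this).resolve_left (pow_ne_zero 2 hm)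
    linear_combination -this
  refine ⟨f, ?_, ?_⟩
  · unfold UE9.cc
    rw [hf, e9]; ring
  · unfold UE9.bb
    have e10 : d = f ^ 2 - f + 1 := by linear_combination e9
    rw [hd, hf, e9, e10]; ring

end nine

end Pool.Agent.UEG

namespace Pool.Agent.FK4

open Pool.Agent.MK4 WeierstrassCurve.Affine
open Pool.Agent.TN (Wt)
open Pool.Agent.UEG (P0 Chg nx ny)

section

variable {k : Type*} [Field k] [DecidableEq k] {W : WeierstrassCurve.Affine k} {F : Type*}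
  [Field F] [Algebra k F] {X Y : F} [CharZero k]

omit [DecidableEq k] in
lemma bb9 : UE9.bb (2 : k) ≠ 0 := by unfold UE9.bb; norm_num

/-- the normal form with `t = 2` -/
def To9 (P : W.Point) (X Y : F) : Prop := ∃ x' y' : F,
  Generic (Wt (UE9.bb (2 : k)) (UE9.cc 2)) x' y' ∧ addOrderOf (P0 (UE9.cc (2 : k)) bb9) = 9 ∧
  SameS (AddSubgroup.zmultiples P) X Y (AddSubgroup.zmultiples (P0 (UE9.cc (2 : k)) bb9)) x' y' ∧
  (IntermediateField.adjoin k {X, Y} = ⊤ → IntermediateField.adjoin k {x', y'} = ⊤)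

/-- points of order nine -/
theorem tate9s (hg : Generic W X Y) (P : W.Point) (h : addOrderOf P = 9) :
    ∃ (t : k) (x y : F) (hb : UE9.bb t ≠ 0), t ≠ 0 ∧ t - 1 ≠ 0 ∧ t ^ 2 - t + 1 ≠ 0 ∧
      Tate P X Y (t ^ 2 * (t - 1) * (t ^ 2 - t + 1)) (t ^ 2 * (t - 1)) x y ∧
      Generic (Wt (UE9.bb t) (UE9.cc t)) x y ∧
      addOrderOf (P0 (UE9.cc t) hb) = 9 ∧
      SameS (AddSubgroup.zmultiples P) X Y (AddSubgroup.zmultiples (P0 (UE9.cc t) hb)) x y ∧
      (IntermediateField.adjoin k {X, Y} = ⊤ → IntermediateField.adjoin k {x, y} = ⊤) ∧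
      (t = 2 ∨ t = -1 ∨ 2 * t = 1 → To9 P X Y) := by
  rcases P with _ | ⟨p₁, p₂, hP⟩
  · exfalso
    have : addOrderOf (0 : W.Point) = 9 := h
    rw [addOrderOf_zero] at this
    omega
  obtain ⟨b, c, u, s, hb, hC, hO, hH⟩ := UEG.tate_of_order hP (by norm_num : 4 ≤ 9) h
  obtain ⟨t, ec', eb'⟩ := UEG.bc_of_nine hb hO
  subst ec' eb'
  obtain ⟨x, y, i1, i2, i3, i4⟩ := tateS_of hg hP hb hC
  have hb' : t ^ 2 * (t - 1) * (t ^ 2 - t + 1) ≠ 0 := hb
  have t1 := (mul_ne_zero_iff.mp (left_ne_zero_of_mul hb')).1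
  refine ⟨t, x, y, hb, (pow_ne_zero_iff two_ne_zero).mp t1,
    (mul_ne_zero_iff.mp (left_ne_zero_of_mul hb')).2, right_ne_zero_of_mul hb', i1, i2, hO, i3, i4,
    ?_⟩
  have hP9 : (9 : ℕ) • Point.some p₁ p₂ hP = 0 := by rw [← h]; exact addOrderOf_nsmul_eq_zero _
  rintro (rfl | rfl | h2)
  · exact ⟨x, y, i2, hO, i3, i4⟩
  · -- `t = -1`
    obtain ⟨h3, e3⟩ := UEG.two_P0 (c := UE9.cc (-1 : k)) hb
    have hC' : Chg (Wt (UE9.bb (-1 : k)) (UE9.cc (-1))) (Wt (UE9.bb 2) (UE9.cc 2)) (-1)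
        (UE9.bb (-1)) 0 (UE9.bb (-1) * UE9.cc (-1)) := by
      constructor <;> (try simp only [Wt, UE9.bb, UE9.cc]) <;> norm_num
    obtain ⟨x', y', j1, j2, j3, j4, j5⟩ := tateS_mul hg hP hb hC bb9 hC' e3
    have hz := zm_eq hP9 (m := 2) (m' := 5) (by norm_num)
    rw [hz] at j4
    exact ⟨x', y', j2, j3.trans ((order_eq hz).trans h), j4, j5⟩
  · -- `t = 1 / 2`
    have h2' : t = 1 / 2 := by linear_combination h2 / 2
    subst h2'
    have hc : UE9.cc (1 / 2 : k) ≠ 0 := by unfold UE9.cc; norm_num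
    have hd : UE9.bb (1 / 2 : k) = 3 / 4 * UE9.cc (1 / 2) := by unfold UE9.bb UE9.cc; norm_num
    obtain ⟨h3, e3⟩ := UEG.four_P0 hb hc hd
    have hC' : Chg (Wt (UE9.bb (1 / 2 : k)) (UE9.cc (1 / 2))) (Wt (UE9.bb 2) (UE9.cc 2)) (-1 / 8)
        (3 / 4 * (3 / 4 - 1)) (-3 / 8) ((3 / 4) ^ 2 * (UE9.cc (1 / 2) + 1 - 3 / 4)) := by
      constructor <;> (try simp only [Wt, UE9.bb, UE9.cc]) <;> norm_num
    obtain ⟨x', y', j1, j2, j3, j4, j5⟩ := tateS_mul hg hP hb hC bb9 hC' e3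
    have hz := zm_eq hP9 (m := 4) (m' := 7) (by norm_num)
    rw [hz] at j4
    exact ⟨x', y', j2, j3.trans ((order_eq hz).trans h), j4, j5⟩

end

end Pool.Agent.FK4
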