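import Pool.Agent.Lib_helper76.UEN.E
import Pool.Agent.Lib_helper76.UE9.T9

/-!
# Points of order nine: the exceptional triples
-/

set_option autoImplicit false
set_option linter.unusedSectionVars false

open scoped TensorProduct

namespace Pool.Agent.UE9

open WeierstrassCurve.Affine Polynomial WithZero GK UP
open UEG (Gen IsUn LineOK P0 negY_wt)
open UEN
open TN (Wt)
open MK4 (FT lg)

/-- a line -/
def ln {k : Type*} [Field k] (F : Type*) [Field F] [Algebra k F] (x y : F) (s e : k) : F :=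
  y - (algebraMap k F s * x + algebraMap k F e)

section rel

variable {k : Type*} [Field k] {b c : k} {F : Type*} [Field F] [Algebra k F] {x y : F}

lemma clear {f a b U V w : F} (hw : w ≠ 0) (h1 : f = a * (U * w⁻¹))
    (h2 : 1 - f = b * (V * w⁻¹)) : a * U + b * V = w := by
  have h3 : (a * U + b * V) * w⁻¹ = 1 := by
    linear_combination -h1 - h2
  rw [← one_mul w, ← h3, mul_assoc, inv_mul_cancel₀ hw, mul_one]

/-- a relation between products of three lines -/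
lemma rel33 (hg : Gen (Wt b c) x y) {α β s₁ s₂ s₃ s₄ s₅ s₆ s₇ s₈ e₁ e₂ e₃ e₄ e₅ e₆ e₇ e₈ : k}
    (hr : algebraMap k F α * (ln F x y s₁ e₁ * ln F x y s₂ e₂ * ln F x y s₃ e₃) +
      algebraMap k F β * (ln F x y s₄ e₄ * ln F x y s₅ e₅ * ln F x y s₆ e₆) =
      ln F x y s₇ e₇ * ln F x y s₈ e₈) :
    α + β = 0 ∧ α * (-(1 - c) - (s₁ + s₂ + s₃)) + β * (-(1 - c) - (s₄ + s₅ + s₆)) = 0 := by
  have he := (UE4.of_UEG hg).eq
  unfold ln at hr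
  rw [tri he, tri he, duo he] at hr
  have e3 : algebraMap k F (α * (-(e₁ * e₂ * e₃)) + β * (-(e₄ * e₅ * e₆)) - e₇ * e₈) +
      algebraMap k F (α * -(s₁ * e₂ * e₃ + s₂ * e₁ * e₃ + s₃ * e₁ * e₂) +
        β * -(s₄ * e₅ * e₆ + s₅ * e₄ * e₆ + s₆ * e₄ * e₅) - (s₇ * e₈ + s₈ * e₇)) * x +
      algebraMap k F (α * ((e₁ * e₂ + e₁ * e₃ + e₂ * e₃) + (b - (e₁ + e₂ + e₃)) * b) +
        β * ((e₄ * e₅ + e₄ * e₆ + e₅ * e₆) + (b - (e₄ + e₅ + e₆)) * b) - (b - (e₇ + e₈))) * y +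
      algebraMap k F (α * (-(s₁ * s₂ * e₃ + s₁ * s₃ * e₂ + s₂ * s₃ * e₁) -
        (b - (e₁ + e₂ + e₃)) * b) + β * (-(s₄ * s₅ * e₆ + s₄ * s₆ * e₅ + s₅ * s₆ * e₄) -
        (b - (e₄ + e₅ + e₆)) * b) - (s₇ * s₈ - b)) * x ^ 2 +
      algebraMap k F (α * ((s₁ * (e₂ + e₃) + s₂ * (e₁ + e₃) + s₃ * (e₁ + e₂)) +
        (b - (e₁ + e₂ + e₃)) * (-(1 - c)) + (-(1 - c) - (s₁ + s₂ + s₃)) * b) +
        β * ((s₄ * (e₅ + e₆) + s₅ * (e₄ + e₆) + s₆ * (e₄ + e₅)) +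
        (b - (e₄ + e₅ + e₆)) * (-(1 - c)) + (-(1 - c) - (s₄ + s₅ + s₆)) * b) -
        (-(1 - c) - (s₇ + s₈))) * (x * y) +
      algebraMap k F (α * (-(s₁ * s₂ * s₃) + (b - (e₁ + e₂ + e₃)) -
        (-(1 - c) - (s₁ + s₂ + s₃)) * b) + β * (-(s₄ * s₅ * s₆) + (b - (e₄ + e₅ + e₆)) -
        (-(1 - c) - (s₄ + s₅ + s₆)) * b) - 1) * x ^ 3 +
      algebraMap k F (α * ((s₁ * s₂ + s₁ * s₃ + s₂ * s₃) - b + (-(1 - c) - (s₁ + s₂ + s₃)) *
        (-(1 - c))) + β * ((s₄ * s₅ + s₄ * s₆ + s₅ * s₆) - b + (-(1 - c) - (s₄ + s₅ + s₆)) *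
        (-(1 - c)))) * (x ^ 2 * y) +
      algebraMap k F (α * (-(1 - c) - (s₁ + s₂ + s₃)) + β * (-(1 - c) - (s₄ + s₅ + s₆))) * x ^ 4 +
      algebraMap k F (α + β) * (x ^ 3 * y) = 0 := by
    simp only [map_add, map_sub, map_mul, map_neg, map_one] at hr ⊢
    linear_combination hr
  obtain ⟨-, -, -, -, -, -, -, g1, g2⟩ := ind9 hg e3
  exact ⟨g2, g1⟩

end rel

section main

variable {k : Type*} [Field k] [DecidableEq k] {t : k} (ht : t ≠ 0) (ht1 : t - 1 ≠ 0)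
  (ht2 : t ^ 2 - t + 1 ≠ 0) {hb : bb t ≠ 0} (hO : addOrderOf (P0 (cc t) hb) = 9)

lemma p1 : ∃ h, (1 : ZMod 9).val • P0 (cc t) hb = .some 0 0 h := ⟨_, one_nsmul _⟩

lemma p2 : ∃ h, (2 : ZMod 9).val • P0 (cc t) hb = .some (bb t) (bb t * cc t) h := UEG.two_P0 hb

lemma p3 : ∃ h, (3 : ZMod 9).val • P0 (cc t) hb = .some (cc t) (bb t - cc t) h :=
  UEG.three_P0 hb

include ht ht1 in
lemma cc_ne : cc t ≠ 0 := by
  unfold cc
  exact mul_ne_zero (pow_ne_zero 2 ht) ht1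

lemma bb_eq : bb t = (t ^ 2 - t + 1) * cc t := by unfold bb cc; ring

/-- the abscissa of `4P` -/
def x4 (t : k) : k := t * (t - 1) * (t ^ 2 - t + 1)

/-- the ordinate of `4P` -/
def y4 (t : k) : k := t * (t - 1) ^ 2 * (t ^ 2 - t + 1) ^ 2

include ht ht1 in
lemma p4 : ∃ h, (4 : ZMod 9).val • P0 (cc t) hb = .some (x4 t) (y4 t) h := by
  have h := UEG.four_P0 hb (cc_ne ht ht1) (bb_eq (t := t))
  have e1 : (t ^ 2 - t + 1) * (t ^ 2 - t + 1 - 1) = x4 t := by unfold x4; ring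
  have e2 : (t ^ 2 - t + 1) ^ 2 * (cc t + 1 - (t ^ 2 - t + 1)) = y4 t := by unfold y4 cc; ring
  rw [e1, e2] at h
  exact h

include ht ht1 hO in
lemma p5 : ∃ h, (5 : ZMod 9).val • P0 (cc t) hb =
    .some (x4 t) (-y4 t - (1 - cc t) * x4 t + bb t) h := neg_mul hO (p4 ht ht1)

include hO in
lemma p6 : ∃ h, (6 : ZMod 9).val • P0 (cc t) hb =
    .some (cc t) (-(bb t - cc t) - (1 - cc t) * cc t + bb t) h := neg_mul hO p3

include hO in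
lemma p7 : ∃ h, (7 : ZMod 9).val • P0 (cc t) hb =
    .some (bb t) (-(bb t * cc t) - (1 - cc t) * bb t + bb t) h := neg_mul hO p2

include hO in
lemma p8 : ∃ h, (8 : ZMod 9).val • P0 (cc t) hb =
    .some 0 (-0 - (1 - cc t) * 0 + bb t) h := neg_mul hO p1

variable {F : Type*} [Field F] [DecidableEq F] [Algebra k F] {x y : F} [CharZero k]
  [Fintype (AddSubgroup.zmultiples (P0 (cc t) hb))]
  [DecidableEq (AddSubgroup.zmultiples (P0 (cc t) hb))] (hg : Gen (Wt (bb t) (cc t)) x y)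

include ht ht1 ht2 in
lemma l33 : PQ hO hg (ln F x y (t ^ 2 - 1) ((bb t - cc t) - (t ^ 2 - 1) * cc t)) (dL 3 3) := by
  refine pq_line hO hg p3 p3 ⟨by ring, Or.inr ⟨rfl, rfl, ?_, ?_⟩⟩
  · have e : 2 * (bb t - cc t) + (1 - cc t) * cc t - bb t = -(cc t * t * (t - 1) ^ 2) := by
      unfold bb cc; ring
    rw [e]
    exact neg_ne_zero.mpr (mul_ne_zero (mul_ne_zero (cc_ne ht ht1) ht) (pow_ne_zero 2 ht1))
  · unfold bb cc; ring

include ht ht1 ht2 in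
lemma l66 : PQ hO hg (ln F x y (-(t ^ 2 - 1) - (1 - cc t))
    ((-(bb t - cc t) - (1 - cc t) * cc t + bb t) - (-(t ^ 2 - 1) - (1 - cc t)) * cc t))
    (dL 6 6) := by
  refine pq_line hO hg (p6 hO) (p6 hO) ⟨by ring, Or.inr ⟨rfl, rfl, ?_, ?_⟩⟩
  · have e : 2 * (-(bb t - cc t) - (1 - cc t) * cc t + bb t) + (1 - cc t) * cc t - bb t =
      cc t * t * (t - 1) ^ 2 := by
      unfold bb cc; ring
    rw [e]
    exact mul_ne_zero (mul_ne_zero (cc_ne ht ht1) ht) (pow_ne_zero 2 ht1)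
  · unfold bb cc; ring

include ht ht1 ht2 in
/-- three parallel flex tangents -/
lemma noA {f : F} (h : Q3 hO hg f (![0, 0, 0, 0, 0, 0, 3, 0, 0] : Fin 9 → ℤ)
    (![0, 0, 0, 3, 0, 0, 0, 0, 0] : Fin 9 → ℤ) (![3, 0, 0, 0, 0, 0, 0, 0, 0] : Fin 9 → ℤ)) :
    t ^ 3 - 3 * t ^ 2 + 1 = 0 := by
  obtain ⟨α, hα, e1⟩ := h.p.eq_smul ((l66 ht ht1 ht2 hO hg).congr (by decide))
  obtain ⟨β, hβ, e2⟩ := h.q.eq_smul ((l33 ht ht1 ht2 hO hg).congr (by decide))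
  have hr : algebraMap k F α * ln F x y (-(t ^ 2 - 1) - (1 - cc t))
      ((-(bb t - cc t) - (1 - cc t) * cc t + bb t) - (-(t ^ 2 - 1) - (1 - cc t)) * cc t) +
      algebraMap k F β * ln F x y (t ^ 2 - 1) ((bb t - cc t) - (t ^ 2 - 1) * cc t) = 1 := by
    rw [← e1, ← e2]; ring
  unfold ln at hr
  have e3 : algebraMap k F (-(α * ((-(bb t - cc t) - (1 - cc t) * cc t + bb t) -
      (-(t ^ 2 - 1) - (1 - cc t)) * cc t)) - β * ((bb t - cc t) - (t ^ 2 - 1) * cc t) - 1) +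
      algebraMap k F (-(α * (-(t ^ 2 - 1) - (1 - cc t))) - β * (t ^ 2 - 1)) * x +
      algebraMap k F (α + β) * y + algebraMap k F 0 * x ^ 2 + algebraMap k F 0 * (x * y) +
      algebraMap k F 0 * x ^ 3 + algebraMap k F 0 * (x ^ 2 * y) + algebraMap k F 0 * x ^ 4 +
      algebraMap k F 0 * (x ^ 3 * y) = 0 := by
    simp only [map_add, map_sub, map_mul, map_neg, map_one, map_zero, map_pow] at hr ⊢
    linear_combination hr
  obtain ⟨-, g1, g2, -⟩ := ind9 hg e3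
  have g3 : α * (t ^ 3 - 3 * t ^ 2 + 1) = 0 := by
    have : cc t = t ^ 2 * (t - 1) := rfl
    rw [this] at g1
    linear_combination -g1 - (t ^ 2 - 1) * g2
  exact (mul_eq_zero.mp g3).resolve_left hα

include ht ht1 ht2 in
lemma nn4 : t * (t - 1) ^ 4 * (t ^ 2 - t + 1) ≠ 0 :=
  mul_ne_zero (mul_ne_zero ht (pow_ne_zero 4 ht1)) ht2

include ht ht1 ht2 in
lemma l11 : PQ hO hg (ln F x y (0 : k) 0) (dL 1 1) := by
  refine pq_line hO hg p1 p1 ⟨by ring, Or.inr ⟨rfl, rfl, ?_, by ring⟩⟩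
  have e : 2 * (0 : k) + (1 - cc t) * 0 - bb t = -bb t := by ring
  rw [e]; exact neg_ne_zero.mpr hb

include ht ht1 ht2 in
lemma l22 : PQ hO hg (ln F x y (t ^ 3 - t) (bb t * cc t - (t ^ 3 - t) * bb t)) (dL 2 2) := by
  refine pq_line hO hg p2 p2 ⟨by ring, Or.inr ⟨rfl, rfl, ?_, ?_⟩⟩
  · have e : 2 * (bb t * cc t) + (1 - cc t) * bb t - bb t = bb t * cc t := by ring
    rw [e]; exact mul_ne_zero hb (cc_ne ht ht1)
  · unfold bb cc; ring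

include ht ht1 ht2 in
lemma l44 : PQ hO hg (ln F x y ((t ^ 2 - t + 1) * (t - 1)) (y4 t - (t ^ 2 - t + 1) * (t - 1) * x4 t))
    (dL 4 4) := by
  refine pq_line hO hg (p4 ht ht1) (p4 ht ht1) ⟨by ring, Or.inr ⟨rfl, rfl, ?_, ?_⟩⟩
  · have e : 2 * y4 t + (1 - cc t) * x4 t - bb t = t * (t - 1) ^ 4 * (t ^ 2 - t + 1) := by
      unfold y4 x4 bb cc; ring
    rw [e]; exact nn4 ht ht1 ht2
  · unfold y4 x4 bb cc; ring

include ht ht1 ht2 in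
lemma l55 : PQ hO hg (ln F x y (-((t ^ 2 - t + 1) * (t - 1)) - (1 - cc t))
    ((-y4 t - (1 - cc t) * x4 t + bb t) - (-((t ^ 2 - t + 1) * (t - 1)) - (1 - cc t)) * x4 t))
    (dL 5 5) := by
  refine pq_line hO hg (p5 ht ht1 hO) (p5 ht ht1 hO) ⟨by ring, Or.inr ⟨rfl, rfl, ?_, ?_⟩⟩
  · have e : 2 * (-y4 t - (1 - cc t) * x4 t + bb t) + (1 - cc t) * x4 t - bb t =
        -(t * (t - 1) ^ 4 * (t ^ 2 - t + 1)) := by
      unfold y4 x4 bb cc; ring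
    rw [e]; exact neg_ne_zero.mpr (nn4 ht ht1 ht2)
  · unfold y4 x4 bb cc; ring

include ht ht1 ht2 in
lemma l77 : PQ hO hg (ln F x y (-(t ^ 3 - t) - (1 - cc t))
    ((-(bb t * cc t) - (1 - cc t) * bb t + bb t) - (-(t ^ 3 - t) - (1 - cc t)) * bb t))
    (dL 7 7) := by
  refine pq_line hO hg (p7 hO) (p7 hO) ⟨by ring, Or.inr ⟨rfl, rfl, ?_, ?_⟩⟩
  · have e : 2 * (-(bb t * cc t) - (1 - cc t) * bb t + bb t) + (1 - cc t) * bb t - bb t =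
        -(bb t * cc t) := by ring
    rw [e]; exact neg_ne_zero.mpr (mul_ne_zero hb (cc_ne ht ht1))
  · unfold bb cc; ring

include ht ht1 ht2 in
lemma l88 : PQ hO hg (ln F x y (-(1 - cc t)) ((-0 - (1 - cc t) * 0 + bb t) - (-(1 - cc t)) * 0))
    (dL 8 8) := by
  refine pq_line hO hg (p8 hO) (p8 hO) ⟨by ring, Or.inr ⟨rfl, rfl, ?_, by ring⟩⟩
  have e : 2 * (-0 - (1 - cc t) * 0 + bb t) + (1 - cc t) * 0 - bb t = bb t := by ring
  rw [e]; exact hb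

include ht ht1 ht2 in
/-- the same on the quotient by `3P` -/
lemma noB {f : F} (h : Q3 hO hg f (![0, 0, 3, 0, 0, 3, 0, 0, 3] : Fin 9 → ℤ)
    (![0, 3, 0, 0, 3, 0, 0, 3, 0] : Fin 9 → ℤ) (![3, 0, 0, 3, 0, 0, 3, 0, 0] : Fin 9 → ℤ)) :
    t ^ 3 + 3 * t ^ 2 - 6 * t + 1 = 0 := by
  have P1 := l11 ht ht1 ht2 hO hg
  have P2 := l22 ht ht1 ht2 hO hg
  have P3 := l33 ht ht1 ht2 hO hg
  have P4 := l44 ht ht1 ht2 hO hg
  have P5 := l55 ht ht1 ht2 hO hg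
  have P6 := l66 ht ht1 ht2 hO hg
  have P7 := l77 ht ht1 ht2 hO hg
  have P8 := l88 ht ht1 ht2 hO hg
  obtain ⟨α, hα, e1⟩ := h.p.eq_smul ((((P2.mul P5).mul P8).mul (P3.mul P6).inv).congr (by decide))
  obtain ⟨β, hβ, e2⟩ := h.q.eq_smul ((((P1.mul P4).mul P7).mul (P3.mul P6).inv).congr (by decide))
  obtain ⟨g1, g2⟩ := rel33 hg (clear (P3.mul P6).1.1 e1 e2)
  have g3 : α * (t ^ 3 + 3 * t ^ 2 - 6 * t + 1) = 0 := by
    have : cc t = t ^ 2 * (t - 1) := rfl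
    rw [this] at g2
    linear_combination -g2 + (2 * t ^ 2 - 3 * t + 1) * g1
  exact (mul_eq_zero.mp g3).resolve_left hα

end main

end Pool.Agent.UE9
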