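import Pool.Agent.Lib_helper76.UE9.A
import Pool.Agent.Lib_helper40.UP9.Comb9

/-!
# Points of order nine: the unit equation
-/

set_option autoImplicit false
set_option linter.unusedSectionVars false

namespace Pool.Agent.UE9

open WeierstrassCurve.Affine GK UP
open UEG (P0 IsUn Gen)
open UEN
open TN (Wt)

/-- **the combinatorial statement for the cyclic group of order nine** -/
theorem main9 : Main UP9.Ex9 := by
  intro D E G d h hRH h1 h2
  have e : ∀ D : ZMod 9 → ℤ, ∑ x, (if D x ≠ 0 then (1 : ℤ) else 0) =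
      ((Finset.univ.filter fun x => D x ≠ 0).card : ℤ) := fun D => by
    rw [Finset.sum_boole]
  rw [e, e, e] at hRH
  rcases h.main9 hRH h1 h2 with h3 | ⟨t, h3⟩
  · exact Or.inl h3
  · exact Or.inr ⟨t, h3⟩

variable {k : Type*} [Field k] [DecidableEq k] [CharZero k] {t : k} (ht : t ≠ 0) (ht1 : t - 1 ≠ 0)
  (ht2 : t ^ 2 - t + 1 ≠ 0) {hb : bb t ≠ 0} (hO : addOrderOf (P0 (cc t) hb) = 9)
  {F : Type*} [Field F] [DecidableEq F] [Algebra k F] {x y : F}
  [Fintype (AddSubgroup.zmultiples (P0 (cc t) hb))]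
  [DecidableEq (AddSubgroup.zmultiples (P0 (cc t) hb))] (hg : Gen (Wt (bb t) (cc t)) x y)

include ht ht1 ht2 hO hg in
/-- **the unit equation for a point of order nine** -/
theorem unit9 (h1 : t ^ 3 - 3 * t ^ 2 + 1 ≠ 0) (h2 : t ^ 3 + 3 * t ^ 2 - 6 * t + 1 ≠ 0)
    (hG : IndG (AddSubgroup.zmultiples (P0 (cc t) hb)) F) {f : F}
    (hf : IsUn (AddSubgroup.zmultiples (P0 (cc t) hb)) x y f)
    (hf' : IsUn (AddSubgroup.zmultiples (P0 (cc t) hb)) x y (1 - f)) :
    (∃ c : k, f = algebraMap k F c) ∨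
      FK4.LineS (AddSubgroup.zmultiples (P0 (cc t) hb)) x y f := by
  refine unit_plain hO main9 hG hg ?_ hf hf'
  rintro X' Y' hg' f' A B C (⟨rfl, rfl, rfl⟩ | ⟨rfl, rfl, rfl⟩) h
  · exact h1 (noA ht ht1 ht2 hO hg' h.inv)
  · exact h2 (noB ht ht1 ht2 hO hg' h.inv)

end Pool.Agent.UE9
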